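import Mathlib
import Pool.Agent.TH841.TR.Stm
import Pool.Agent.TH841.PM.Stm
import Pool.Agent.W307.FK.Stm

/-!
# Project D (helper870): the exact growth of all the integral moments of the 2-Selmer groups in pencils

Statements of the independent parts. `ATXD` is `TH841.TR.ATXR` with the hypothesis `ZZ` (the indices
of `Z` are mutually unlinked) replaced by the weaker hypothesis `CD`.
-/

set_option autoImplicit false

namespace Pool.Agent.N870.D

open Finset Polynomial Pool.Agent.W262.RK Pool.Agent.TH841.PT Pool.Agent.TH841.TR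

open Pool.Agent.W307.FK (dt)

/-- the sets and the upper bound `M`, third condition -/
def CD {ι : Type} [DecidableEq ι] (L : ι → ι → Bool) (Z : Finset ι) (S : ι → ℝ) (M : ℝ) : Prop :=
  ∀ F W : Finset ι, Disjoint F W → (∀ i ∈ F, ∀ j ∈ F, L i j = L j i) →
    (∀ w ∈ W, w ∈ Z ∧ Unc L w (F ∪ W)) →
    (∃ w ∈ W, ∃ q ∈ Z, L w q ≠ L q w ∧ ∀ i ∈ F, i ∉ Z → L i q = L q i) →
    ∑ i ∈ F.filter (fun i => (∀ w ∈ W, L i w = L w i) ∧ ¬ (i ∈ Z ∧ Unc L i (F ∪ W))), S i ≤ M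

/-- the hypotheses of the refined bound, without `ZZ` and with `CD` -/
structure HypD {ι : Type} [Fintype ι] [DecidableEq ι] (a b : ι → ℕ → ℝ) (L : ι → ι → Bool)
    (Z : Finset ι) (c z : ℕ) (δ C0 E0 : ℝ) (M : ℕ → ℝ) : Prop where
  ab : ∀ i p, |a i p| ≤ b i p
  LL : ∀ i, L i i = false
  hz : 2 * c + 2 + Fintype.card ι ≤ z
  hδ : 0 < δ
  hE : 0 ≤ E0
  hC : 0 ≤ C0
  low : ∀ i y, z < y → δ * Real.log (Real.log y) ≤ Sp (b i) z y + C0
  H1 : ∀ q ∈ Z, ∀ y, z < y → ∑ p ∈ PS z y, a q p / (p : ℝ) ≤ C0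
  H2 : ∀ (i : ι) (y r : ℕ) (e : Bool), z < y → 1 < r → Squarefree r →
    (∀ p : ℕ, p.Prime → p ∣ r → z < p) →
    ∑ p ∈ PS z y, a i p * (Jr p r * x4 e p) / (p : ℝ) ≤ E0 * Real.log (Real.log r) + C0
  CA : ∀ y, z < y → CA L Z (fun i => Sp (b i) z y) (M y)
  CB : ∀ y, z < y → CB L Z (fun i => Sp (b i) z y) (M y + C0 - δ * Real.log (Real.log y))
  CD : ∀ y, z < y → CD L Z (fun i => Sp (b i) z y) (M y + C0 - δ * Real.log (Real.log y))

/-- D/ATX: the refined bound for larger weights (as `TH841.TR.ATXR`) -/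
def ATXD : Prop := ∀ (R : ℕ), 1 ≤ R → ∀ (ι : Type) [Fintype ι] [DecidableEq ι] (a b : ι → ℕ → ℝ)
  (L : ι → ι → Bool) (Z : Finset ι) (c z : ℕ) (δ C0 E0 : ℝ) (M : ℕ → ℝ),
  (∀ i p, b i p ≤ R / 2) → HypD a b L Z c z δ C0 E0 M →
  2 * c + 2 + Fintype.card ι * R ≤ z →
  ∃ C : ℝ, ∀ y, z < y →
    |∑ d ∈ Tup ι z y, (∏ i, gp (a i) c (d i)) * Sym L (fun _ => 1) d| ≤ C * Real.exp (M y)

/-! ### The largest unlinked sets -/

section

variable {J : Type} [Fintype J] [DecidableEq J]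

/-- the index set `(j, x, y)` -/
abbrev IA (J : Type) (k : ℕ) : Type := J × (Fin k → Bool) × (Fin k → Bool)

/-- the symbol `(d i / d i')` occurs if the classes are different and `x_i · y_{i'} = 1` -/
def LA (cls : J → Fin 3) {k : ℕ} (i i' : IA J k) : Bool :=
  decide (cls i.1 ≠ cls i'.1) && decide (dt k i.2.1 i'.2.2 % 2 = 1)

/-- the indices with `x · y = 1` of the `j` that are not split -/
def ZA (sp : J → Bool) (k : ℕ) : Finset (IA J k) :=
  univ.filter (fun i => sp i.1 = false ∧ dt k i.2.1 i.2.2 % 2 = 1)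

/-- the exponent of the class `c` -/
noncomputable def ec (cls : J → Fin 3) (sp : J → Bool) (k : ℕ) (c : Fin 3) : ℝ :=
  (2 ^ k - 1) * (((univ.filter (fun j => cls j = c)).card : ℝ) +
    ((univ.filter (fun j => cls j = c ∧ sp j = true)).card : ℝ)) / 2 -
  (1 - 1 / 2 ^ k) * ((univ.filter (fun j => cls j ≠ c)).card : ℝ)

end

/-- D/CMB: the largest unlinked sets. -/
def S_CMB : Prop := ∀ (J : Type) [Fintype J] [DecidableEq J] (cls : J → Fin 3) (sp : J → Bool)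
  (k : ℕ), 1 ≤ k → (∀ c : Fin 3, ∃ j, cls j ≠ c) → ∀ T : ℝ, (Fintype.card J : ℝ) ≤ T →
  (∀ c : Fin 3, (Fintype.card J : ℝ) + ec cls sp k c ≤ T) →
  CA (LA cls) (ZA sp k) (fun _ => 1 / 2 ^ k) T ∧
  CB (LA cls) (ZA sp k) (fun _ => 1 / 2 ^ k) (T - 1 / 2 ^ k) ∧
  CD (LA cls) (ZA sp k) (fun _ => 1 / 2 ^ k) (T - 1 / 2 ^ k)

end Pool.Agent.N870.D
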