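import Mathlib
import Pool.Agent.N870.D.Stm
import Pool.Agent.N870.D.Avg
import Pool.Agent.TH841.TR.MakX

/-!
# Project D: the main average for the `k`-th powers, with the growth
-/

set_option autoImplicit false

namespace Pool.Agent.N870.D

open Finset Polynomial Pool.Agent.W262.RK Pool.Agent.W307.RT Pool.Agent.W307.RS
open Pool.Agent.TH841.PT Pool.Agent.TH841.PM Pool.Agent.TH841.TR

open Pool.Agent.TH344.DT (nn om Alt)

open Pool.Agent.H474R2.PG (rho)

open Pool.Agent.W307.FK (dt)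

/-! ### Scaling -/

section

variable {ι : Type} [DecidableEq ι]

lemma CDscale {L : ι → ι → Bool} {Z : Finset ι} {w S : ι → ℝ} {K T : ℝ} (h : CD L Z w K)
    (hT : 0 ≤ T) (hS : ∀ i, S i ≤ w i * T) : CD L Z S (K * T) := by
  intro F W hFW hF hW hq
  have h1 := h F W hFW hF hW hq
  calc ∑ i ∈ F.filter (fun i => (∀ w ∈ W, L i w = L w i) ∧ ¬ (i ∈ Z ∧ Unc L i (F ∪ W))), S i
      ≤ ∑ i ∈ F.filter (fun i => (∀ w ∈ W, L i w = L w i) ∧ ¬ (i ∈ Z ∧ Unc L i (F ∪ W))),
        w i * T := sum_le_sum fun i _ => hS i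
    _ = (∑ i ∈ F.filter (fun i => (∀ w ∈ W, L i w = L w i) ∧ ¬ (i ∈ Z ∧ Unc L i (F ∪ W))),
        w i) * T := by rw [sum_mul]
    _ ≤ K * T := mul_le_mul_of_nonneg_right h1 hT

lemma CDmono {L : ι → ι → Bool} {Z : Finset ι} {S : ι → ℝ} {K K' : ℝ} (h : CD L Z S K)
    (hK : K ≤ K') : CD L Z S K' := fun F W hFW hF hW hq => (h F W hFW hF hW hq).trans hK

end

/-! ### Pull back along an injective map -/

section pull

variable {ι ι' : Type} [DecidableEq ι] [DecidableEq ι'] {φ : ι → ι'}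
  {L : ι → ι → Bool} {L' : ι' → ι' → Bool} {Z : Finset ι} {Z' : Finset ι'} {S : ι → ℝ}
  {S' : ι' → ℝ} {M : ℝ}

lemma unc_pull (hL : ∀ i j, L i j = L' (φ i) (φ j)) (i : ι) (F : Finset ι) :
    Unc L' (φ i) (F.image φ) ↔ Unc L i F := by
  unfold Unc
  simp only [forall_mem_image, hL]

lemma CApull (hφ : Function.Injective φ) (hL : ∀ i j, L i j = L' (φ i) (φ j))
    (hZ : ∀ i, i ∈ Z ↔ φ i ∈ Z') (hS : ∀ i, S i = S' (φ i)) (h : CA L' Z' S' M) :
    CA L Z S M := by
  intro F hF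
  have h1 := h (F.image φ) (by
    simp only [forall_mem_image, ← hL]
    exact hF)
  refine le_trans (le_of_eq ?_) h1
  have e : (F.image φ).filter (fun i => ¬ (i ∈ Z' ∧ Unc L' i (F.image φ))) =
      (F.filter (fun i => ¬ (i ∈ Z ∧ Unc L i F))).image φ := by
    rw [filter_image]
    congr 1
    refine filter_congr fun i _ => ?_
    rw [unc_pull hL, hZ]
  rw [e, sum_image (fun _ _ _ _ h => hφ h)]
  exact sum_congr rfl fun i _ => hS i

lemma sum_pull (hφ : Function.Injective φ) (hL : ∀ i j, L i j = L' (φ i) (φ j))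
    (hZ : ∀ i, i ∈ Z ↔ φ i ∈ Z') (hS : ∀ i, S i = S' (φ i)) (F W : Finset ι) :
    ∑ i ∈ F.filter (fun i => (∀ w ∈ W, L i w = L w i) ∧ ¬ (i ∈ Z ∧ Unc L i (F ∪ W))), S i =
    ∑ i ∈ (F.image φ).filter (fun i => (∀ w ∈ W.image φ, L' i w = L' w i) ∧
      ¬ (i ∈ Z' ∧ Unc L' i (F.image φ ∪ W.image φ))), S' i := by
  have e : (F.image φ).filter (fun i => (∀ w ∈ W.image φ, L' i w = L' w i) ∧
      ¬ (i ∈ Z' ∧ Unc L' i (F.image φ ∪ W.image φ))) =
      (F.filter (fun i => (∀ w ∈ W, L i w = L w i) ∧ ¬ (i ∈ Z ∧ Unc L i (F ∪ W)))).image φ := by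
    rw [filter_image]
    congr 1
    refine filter_congr fun i _ => ?_
    rw [← image_union, unc_pull hL, hZ]
    simp only [forall_mem_image, hL]
  rw [e, sum_image (fun _ _ _ _ h => hφ h)]
  exact sum_congr rfl fun i _ => hS i

lemma CBpull (hφ : Function.Injective φ) (hL : ∀ i j, L i j = L' (φ i) (φ j))
    (hZ : ∀ i, i ∈ Z ↔ φ i ∈ Z') (hS : ∀ i, S i = S' (φ i)) (h : CB L' Z' S' M) :
    CB L Z S M := by
  intro F W hFW hF hW
  rw [sum_pull hφ hL hZ hS]
  refine h _ _ ((disjoint_image hφ).2 hFW) ?_ ?_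
  · simp only [forall_mem_image, ← hL]
    exact hF
  · obtain ⟨w, hw, hw2⟩ := hW
    refine ⟨φ w, mem_image_of_mem _ hw, ?_⟩
    rw [← image_union, unc_pull hL, ← hZ]
    exact hw2

lemma CDpull (hφ : Function.Injective φ) (hL : ∀ i j, L i j = L' (φ i) (φ j))
    (hZ : ∀ i, i ∈ Z ↔ φ i ∈ Z') (hS : ∀ i, S i = S' (φ i)) (h : CD L' Z' S' M) :
    CD L Z S M := by
  intro F W hFW hF hW hq
  rw [sum_pull hφ hL hZ hS]
  refine h _ _ ((disjoint_image hφ).2 hFW) ?_ ?_ ?_
  · simp only [forall_mem_image, ← hL]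
    exact hF
  · simp only [forall_mem_image]
    intro w hw
    rw [← image_union, unc_pull hL, ← hZ]
    exact hW w hw
  · obtain ⟨w, hw, q, hq1, hq2, hq3⟩ := hq
    refine ⟨φ w, mem_image_of_mem _ hw, φ q, (hZ q).1 hq1, ?_, ?_⟩
    · rw [← hL, ← hL]
      exact hq2
    · simp only [forall_mem_image, ← hL, ← hZ]
      exact hq3

end pull

section

variable {J : Type} [Fintype J] [DecidableEq J]

/-- the classes as in `W262.RK` -/
def c4 (cls : J → Fin 3) (j : J) : Fin 4 := (cls j).castSucc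

/-- is the vector not zero? -/
def nz (v : Bool × Bool) : Bool := !(decide (v = (false, false)))

/-- the map of the indices -/
def ph (cls : J → Fin 3) {k : ℕ} (i : IK4 (c4 cls) k) : IA J k :=
  (i.1.1, (fun b => nz (i.1.2.1 b)), (fun b => nz (i.1.2.2 b)))

/-- the indices with signed weights -/
def ZK (cls : J → Fin 3) (sp : J → Bool) (k : ℕ) : Finset (IK4 (c4 cls) k) :=
  univ.filter (fun i => ph cls i ∈ ZA sp k)

lemma c4_ne (cls : J → Fin 3) (j : J) : c4 cls j ≠ 3 := by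
  unfold c4
  generalize cls j = c
  revert c
  decide

lemma al_of (cls : J → Fin 3) {k : ℕ} (i : IK4 (c4 cls) k) (b : Fin k) :
    Al (c4 cls i.1.1) (i.1.2.1 b) (i.1.2.2 b) = true := by
  have h := i.2
  unfold AlK at h
  rw [if_neg (c4_ne cls i.1.1)] at h
  exact of_decide_eq_true h b

lemma al_val : ∀ (c : Fin 3) (v x : Bool × Bool), Al c.castSucc v x = true →
    v = (if nz v = true then Pool.Agent.W262.RK.ec c.castSucc else (false, false)) ∧
    x = (if nz x = true then (Pool.Agent.W262.RK.ec c.castSucc).swap else (false, false)) := by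
  decide

lemma ph_inj (cls : J → Fin 3) (k : ℕ) : Function.Injective (ph cls (k := k)) := by
  intro i i' h
  unfold ph at h
  obtain ⟨h1, h2, h3⟩ : i.1.1 = i'.1.1 ∧
      (fun b => nz (i.1.2.1 b)) = (fun b => nz (i'.1.2.1 b)) ∧
      (fun b => nz (i.1.2.2 b)) = (fun b => nz (i'.1.2.2 b)) := by
    simpa only [Prod.mk.injEq] using h
  apply Subtype.ext
  refine Prod.ext h1 (Prod.ext ?_ ?_)
  · funext b
    obtain ⟨e1, -⟩ := al_val _ _ _ (al_of cls i b)
    obtain ⟨e2, -⟩ := al_val _ _ _ (al_of cls i' b)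
    rw [e1, e2, congrFun h2 b, h1]
  · funext b
    obtain ⟨-, e1⟩ := al_val _ _ _ (al_of cls i b)
    obtain ⟨-, e2⟩ := al_val _ _ _ (al_of cls i' b)
    rw [e1, e2, congrFun h3 b, h1]

lemma pair_val : ∀ (c c' : Fin 3) (v x v' x' : Bool × Bool), Al c.castSucc v x = true →
    Al c'.castSucc v' x' = true → xor (x'.1 && v.1) (x'.2 && v.2) =
      (decide (c ≠ c') && (nz v && nz x')) := by
  decide

lemma LK4_ph (cls : J → Fin 3) {k : ℕ} (i i' : IK4 (c4 cls) k) :
    LK4 (c4 cls) i i' = LA cls (ph cls i) (ph cls i') := by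
  unfold LK4 LA dk ph dt
  simp only [pair_val _ _ _ _ _ _ (al_of cls i _) (al_of cls i' _)]
  by_cases h : cls i.1.1 = cls i'.1.1
  · simp [h]
  · simp [h]

lemma wK_ph (cls : J → Fin 3) {k : ℕ} (i : IK4 (c4 cls) k) : wK (c4 cls) i = 1 / 2 ^ k := by
  unfold wK
  rw [if_neg (c4_ne cls _)]

/-- the three conditions for the indices of project PM -/
lemma cmbK (hcmb : S_CMB) (cls : J → Fin 3) (sp : J → Bool) {k : ℕ} (hk : 1 ≤ k)
    (hc : ∀ c : Fin 3, ∃ j, cls j ≠ c) {T : ℝ} (hT : (Fintype.card J : ℝ) ≤ T)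
    (hT' : ∀ c : Fin 3, (Fintype.card J : ℝ) + ec cls sp k c ≤ T) :
    CA (LK4 (c4 cls)) (ZK cls sp k) (wK (c4 cls)) T ∧
    CB (LK4 (c4 cls)) (ZK cls sp k) (wK (c4 cls)) (T - 1 / 2 ^ k) ∧
    CD (LK4 (c4 cls)) (ZK cls sp k) (wK (c4 cls)) (T - 1 / 2 ^ k) := by
  obtain ⟨h1, h2, h3⟩ := hcmb J cls sp k hk hc T hT hT'
  have hZ : ∀ i : IK4 (c4 cls) k, i ∈ ZK cls sp k ↔ ph cls i ∈ ZA sp k := by
    intro i
    unfold ZK
    rw [mem_filter]
    exact ⟨fun h => h.2, fun h => ⟨mem_univ _, h⟩⟩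
  exact ⟨CApull (ph_inj cls k) (LK4_ph cls) hZ (wK_ph cls) h1,
    CBpull (ph_inj cls k) (LK4_ph cls) hZ (wK_ph cls) h2,
    CDpull (ph_inj cls k) (LK4_ph cls) hZ (wK_ph cls) h3⟩

/-! ### The polynomials of the indices with signed weights -/

lemma NSqg_pow {f g : ℤ[X]} (hf : Irreducible (f.map (Int.castRingHom ℚ)))
    (hfg : ¬ f.map (Int.castRingHom ℚ) ∣ g.map (Int.castRingHom ℚ)) (h : NSqg f g 1) (r : ℕ) :
    NSqg f (g ^ (2 * r + 1)) 1 := by
  intro q hq
  obtain ⟨u, v, huv⟩ := ((hf.coprime_iff_not_dvd).2 hfg).symm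
  apply h (q * u ^ r)
  rw [Polynomial.map_pow] at hq
  set F := f.map (Int.castRingHom ℚ) with hF
  set G := g.map (Int.castRingHom ℚ) with hG
  have h1 : F ∣ u * G - 1 := ⟨-v, by linear_combination huv⟩
  have h2 : F ∣ (u * G) ^ (2 * r) - 1 := by
    have := sub_dvd_pow_sub_pow (u * G) 1 (2 * r)
    rw [one_pow] at this
    exact h1.trans this
  have h3 : (q * u ^ r) ^ 2 - C ((1 : ℤ) : ℚ) * G =
      u ^ (2 * r) * (q ^ 2 - C ((1 : ℤ) : ℚ) * G ^ (2 * r + 1)) +
        G * ((u * G) ^ (2 * r) - 1) := by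
    simp only [Int.cast_one, C_1]
    ring
  rw [h3]
  exact dvd_add (hq.mul_left _) (h2.mul_left _)

lemma gpK_eq (cls : J → Fin 3) (a : Fin 3 → ℤ) (f : J → ℤ[X]) {k : ℕ} (i : IK4 (c4 cls) k) :
    gpK (c4 cls) a f i = kpol (c4 cls) a f i.1.1 0 ^ dt k (ph cls i).2.1 (ph cls i).2.2 := by
  unfold gpK gb
  have hm : ∀ b, Pool.Agent.TH841.PM.mt (c4 cls i.1.1) (i.1.2.1 b) (i.1.2.2 b) = false := by
    intro b
    unfold Pool.Agent.TH841.PM.mt
    rw [decide_eq_false (c4_ne cls _)]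
    rfl
  simp only [hm, if_neg (c4_ne cls i.1.1)]
  simp only [Bool.false_eq_true, if_false, one_mul]
  unfold dt ph nz
  rw [← prod_filter, prod_const]

lemma nsqg_gpK {cls : J → Fin 3} {a : Fin 3 → ℤ} {f : J → ℤ[X]} (ha : ∀ k, a k ≠ 0) (hf : Irr f)
    {sp : J → Bool} (hsp : ∀ j, sp j = false → NSqg (f j) (kpol (c4 cls) a f j 0) 1) {k : ℕ}
    {i : IK4 (c4 cls) k} (hi : i ∈ ZK cls sp k) : NSqg (f i.1.1) (gpK (c4 cls) a f i) 1 := by
  have h1 := (mem_filter.1 (mem_filter.1 hi).2).2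
  have h2 : dt k (ph cls i).2.1 (ph cls i).2.2 % 2 = 1 := h1.2
  have h3 : sp i.1.1 = false := h1.1
  rw [gpK_eq]
  obtain ⟨r, hr⟩ : ∃ r, dt k (ph cls i).2.1 (ph cls i).2.2 = 2 * r + 1 :=
    ⟨dt k (ph cls i).2.1 (ph cls i).2.2 / 2, by omega⟩
  rw [hr]
  refine NSqg_pow (hf.irrQ i.1.1) ?_ (hsp _ h3) r
  intro hd
  have h4 := ndvd_gpK hf ha i
  rw [gpK_eq, hr] at h4
  apply h4
  unfold mQ
  rw [Polynomial.map_pow]
  exact hd.trans (dvd_pow_self _ (by omega))

lemma wt_empty (n : J → ℕ) : wt (∅ : Finset (J → ℝ)) n = 1 := by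
  unfold wt Pool.Agent.TH344.DT.rho
  simp

/-- **the main average for one-parameter families** -/
theorem makd (hats : ATXD) (hcmb : S_CMB) (hh1 : H1L) (hmer : MERGE) (hexp : Pool.Agent.TH841.PM.EXPK)
    (htw : TWG) (hgd : GDP)
    (cls : J → Fin 3) (a : Fin 3 → ℤ) (f : J → ℤ[X]) (sp : J → Bool) (ha : ∀ k, a k ≠ 0)
    (hf : Irr f) {k : ℕ} (hk : 1 ≤ k) (hcl : ∀ c : Fin 3, ∃ j, cls j ≠ c)
    (hsp : ∀ j, sp j = false → NSqg (f j) (kpol (c4 cls) a f j 0) 1)
    {E : ℝ} (hE : 0 ≤ E) (hE' : ∀ c : Fin 3, ec cls sp k c ≤ E)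
    (c : ℕ) (hc : (∏ j, f j).natDegree + 1 ≤ c) :
    ∃ z0 : ℕ, ∀ z, z0 ≤ z → Gp a f z c ∧ ∃ C : ℝ, ∀ y, z < y →
      ∑ s ∈ Tup (J × Ty) z y, NBK k (clsI (c4 cls)) eI s *
        (∏ i, gp (rT (c4 cls) a f z i) c (s i)) *
        wt (∅ : Finset (J → ℝ)) (fun j => ∑ θ : Ty, (s (j, θ)).primeFactors.card) ≤
        C * (Real.exp (Sp (fun p => rho (∏ j, f j) p) z y) * (Real.log y) ^ E) := by
  obtain ⟨hCA, hCB, hCD⟩ := cmbK hcmb cls sp hk hcl (T := Fintype.card J + E)
    (by linarith) (fun c => by linarith [hE' c])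
  obtain ⟨zg, hzg⟩ := exists_Gp hgd hf ha c hc
  choose E0 zt hE0 hzt using fun i : IK4 (c4 cls) k =>
    htw (f i.1.1) (hf.irr _) (hf.deg _) (gpK (c4 cls) a f i) (ndvd_gpK hf ha i)
  have hh : ∀ i : IK4 (c4 cls) k, ∃ z0 : ℕ, ∀ z, z0 ≤ z → ∃ C : ℝ, i ∈ ZK cls sp k →
      ∀ y : ℕ, z < y →
      ∑ p ∈ PS z y, rhoc (f i.1.1) (gpK (c4 cls) a f i) p / (p : ℝ) ≤ C := by
    intro i
    by_cases hi : i ∈ ZK cls sp k
    · obtain ⟨z0, hz0⟩ := hh1 (f i.1.1) (hf.irr _) (hf.deg _) (gpK (c4 cls) a f i)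
        (ndvd_gpK hf ha i) (nsqg_gpK ha hf hsp hi)
      exact ⟨z0, fun z hz => (hz0 z hz).imp fun C hC _ => hC⟩
    · exact ⟨0, fun z _ => ⟨0, fun h => absurd h hi⟩⟩
  choose zh hzh using hh
  refine ⟨zg + univ.sup zt + univ.sup zh + (2 * c + 2 + Fintype.card (IK4 (c4 cls) k) * (2 * c)) +
    (2 * c + 2 + Fintype.card (IK4 (c4 cls) k)), fun z hz => ⟨hzg z (by omega), ?_⟩⟩
  have hG := hzg z (by omega)
  have hzt' : ∀ i, zt i ≤ z := fun i => (le_sup (f := zt) (mem_univ i)).trans (by omega)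
  have hzh' : ∀ i, zh i ≤ z := fun i => (le_sup (f := zh) (mem_univ i)).trans (by omega)
  choose Ct hCt using fun i : IK4 (c4 cls) k => hzt i z (hzt' i)
  choose Ch hCh using fun i : IK4 (c4 cls) k => hzh i z (hzh' i)
  have hz4 := hG.four
  choose Cm hCm0 hCm using fun j : J => mert (hf.irr j) (hf.deg j) (z := z) (by omega)
  set Cs : ℝ := ∑ j, Cm j with hCs
  have hCs' : ∀ j, Cm j ≤ Cs := fun j => single_le_sum (f := Cm) (fun j _ => hCm0 j) (mem_univ j)
  have hCs0 : 0 ≤ Cs := sum_nonneg fun j _ => hCm0 j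
  have hEs : ∀ i, E0 i ≤ ∑ i, E0 i := fun i =>
    single_le_sum (f := E0) (fun j _ => hE0 j) (mem_univ i)
  have hCts : ∀ i, |Ct i| ≤ ∑ i, |Ct i| := fun i =>
    single_le_sum (f := fun i => |Ct i|) (fun j _ => abs_nonneg _) (mem_univ i)
  have hChs : ∀ i, |Ch i| ≤ ∑ i, |Ch i| := fun i =>
    single_le_sum (f := fun i => |Ch i|) (fun j _ => abs_nonneg _) (mem_univ i)
  have hE0s : 0 ≤ ∑ i, E0 i := sum_nonneg fun i _ => hE0 i
  have hC0s : 0 ≤ ∑ i, |Ct i| := sum_nonneg fun i _ => abs_nonneg _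
  have hC1s : 0 ≤ ∑ i, |Ch i| := sum_nonneg fun i _ => abs_nonneg _
  set K0 : ℝ := ∑ i, |Ct i| + Cs + ∑ i, |Ch i| with hK0
  have hK00 : 0 ≤ K0 := by positivity
  have hll : ∀ y, z < y → 0 ≤ Real.log (Real.log y) := by
    intro y hy
    have h3 : (3 : ℝ) ≤ y := by exact_mod_cast (by omega : 3 ≤ y)
    apply Real.log_nonneg
    rw [Real.le_log_iff_exp_le (by linarith)]
    have := Real.exp_one_lt_d9
    linarith
  have hSb : ∀ (i : IK4 (c4 cls) k) y, Sp (bwK (c4 cls) f z i) z y =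
      wK (c4 cls) i * Sp (fun p => rho (f i.1.1) p) z y := by
    intro i y
    unfold Sp
    rw [mul_sum]
    refine sum_congr rfl fun p hp => ?_
    have hp' := mem_filter.1 hp
    unfold bwK
    rw [if_pos ⟨hp'.2, (mem_Ioc.1 hp'.1).1⟩]
    ring
  have hSl : ∀ j y, z < y → Sp (fun p => rho (f j) p) z y ≤ Real.log (Real.log y) + Cs ∧
      Real.log (Real.log y) - Cs ≤ Sp (fun p => rho (f j) p) z y := by
    intro j y hy
    have h1 := abs_le.1 (hCm j y hy)
    have h2 := hCs' j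
    constructor <;> linarith [h1.1, h1.2]
  set M : ℕ → ℝ := fun y => ∑ j, Sp (fun p => rho (f j) p) z y + E * Real.log (Real.log y) +
    (2 * Fintype.card J + E) * Cs with hM
  have hMge : ∀ y, z < y → (Fintype.card J + E) * (Real.log (Real.log y) + Cs) ≤ M y := by
    intro y hy
    have h3 : ∑ j : J, (Real.log (Real.log y) - Cs) ≤ ∑ j, Sp (fun p => rho (f j) p) z y :=
      sum_le_sum fun j _ => (hSl j y hy).2
    rw [sum_const, nsmul_eq_mul, card_univ] at h3
    rw [hM]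
    beta_reduce
    linarith
  have hSw : ∀ y, z < y → ∀ i : IK4 (c4 cls) k, Sp (bwK (c4 cls) f z i) z y ≤
      wK (c4 cls) i * (Real.log (Real.log y) + Cs) := by
    intro y hy i
    rw [hSb]
    exact mul_le_mul_of_nonneg_left (hSl i.1.1 y hy).1 (wK_pos (c4 cls) i).le
  have hfin : ∀ y, z < y → ((Fintype.card J : ℝ) + E - 1 / 2 ^ k) *
      (Real.log (Real.log y) + Cs) ≤ M y + K0 - 1 / 2 ^ k * Real.log (Real.log y) := by
    intro y hy
    have h1 := hMge y hy
    have h2 : ((Fintype.card J : ℝ) + E - 1 / 2 ^ k) * (Real.log (Real.log y) + Cs) =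
        (Fintype.card J + E) * (Real.log (Real.log y) + Cs) -
          1 / 2 ^ k * Real.log (Real.log y) - 1 / 2 ^ k * Cs := by ring
    have h3 : 0 ≤ 1 / 2 ^ k * Cs := by positivity
    rw [h2]
    linarith
  obtain ⟨C, hC⟩ := hats (2 * c) (by have := hG.one; omega) (IK4 (c4 cls) k) (awK (c4 cls) a f z)
    (bwK (c4 cls) f z) (LK4 (c4 cls)) (ZK cls sp k) c z (1 / 2 ^ k) K0 (∑ i, E0 i) M
    (by
      intro i p
      unfold bwK
      split_ifs with h1
      · have h2 : (rho (f i.1.1) p : ℝ) ≤ c := by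
          exact_mod_cast rho_le_prod hG h1.1 h1.2 i.1.1
        have h3 := wK_le_one (c4 cls) i
        have h4 := (wK_pos (c4 cls) i).le
        have h5 : (0 : ℝ) ≤ rho (f i.1.1) p := Nat.cast_nonneg _
        push_cast
        nlinarith
      · positivity)
    { ab := fun i p => awK_abs _ _ _ _ _ _
      LL := LK4_self (c4 cls)
      hz := by omega
      hδ := by positivity
      hE := hE0s
      hC := hK00
      low := by
        intro i y hy
        rw [hSb i]
        have h1 := (hSl i.1.1 y hy).2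
        have h2 : (1 : ℝ) / 2 ^ k = wK (c4 cls) i := (wK_ph cls i).symm
        have h3 := wK_le_one (c4 cls) i
        have h4 := hll y hy
        have h5 : wK (c4 cls) i * (Real.log (Real.log y) - Cs) ≤
            wK (c4 cls) i * Sp (fun p => rho (f i.1.1) p) z y :=
          mul_le_mul_of_nonneg_left h1 (wK_pos (c4 cls) i).le
        rw [hK0]
        nlinarith
      H1 := by
        intro i hi y hy
        have h1 := hCh i hi y hy
        have h2 : ∑ p ∈ PS z y, awK (c4 cls) a f z i p / (p : ℝ) =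
            wK (c4 cls) i * ∑ p ∈ PS z y, rhoc (f i.1.1) (gpK (c4 cls) a f i) p / (p : ℝ) := by
          rw [mul_sum]
          refine sum_congr rfl fun p hp => ?_
          have hp' := mem_filter.1 hp
          unfold awK
          rw [if_pos ⟨hp'.2, (mem_Ioc.1 hp'.1).1⟩]
          ring
        rw [h2]
        have h3 : ∑ p ∈ PS z y, rhoc (f i.1.1) (gpK (c4 cls) a f i) p / (p : ℝ) ≤ ∑ i, |Ch i| := by
          linarith [hChs i, le_abs_self (Ch i)]
        have h7 := mul_le_mul_of_nonneg_left h3 (wK_pos (c4 cls) i).le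
        have h8 := mul_le_mul_of_nonneg_right (wK_le_one (c4 cls) i) hC1s
        rw [hK0]
        linarith
      H2 := by
        intro i y r e hy hr hsq hpr
        have h1 := hCt i y r e hy hr hsq hpr
        have hlr := loglog_nonneg (by omega : 2 ≤ z) hr hpr
        have h2 : ∑ p ∈ PS z y, awK (c4 cls) a f z i p * (Jr p r * x4 e p) / (p : ℝ) =
            wK (c4 cls) i * ∑ p ∈ PS z y, rhoc (f i.1.1) (gpK (c4 cls) a f i) p *
              (Jr p r * x4 e p) / (p : ℝ) := by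
          rw [mul_sum]
          refine sum_congr rfl fun p hp => ?_
          have hp' := mem_filter.1 hp
          unfold awK
          rw [if_pos ⟨hp'.2, (mem_Ioc.1 hp'.1).1⟩]
          ring
        rw [h2]
        have h3 : ∑ p ∈ PS z y, rhoc (f i.1.1) (gpK (c4 cls) a f i) p * (Jr p r * x4 e p) / (p : ℝ) ≤
            (∑ i, E0 i) * Real.log (Real.log r) + ∑ i, |Ct i| := by
          have := mul_le_mul_of_nonneg_right (hEs i) hlr
          linarith [hCts i, le_abs_self (Ct i)]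
        have h5 : 0 ≤ (∑ i, E0 i) * Real.log (Real.log r) + ∑ i, |Ct i| := by positivity
        have h6 : wK (c4 cls) i * ∑ p ∈ PS z y, rhoc (f i.1.1) (gpK (c4 cls) a f i) p *
              (Jr p r * x4 e p) / (p : ℝ) ≤ (∑ i, E0 i) * Real.log (Real.log r) + ∑ i, |Ct i| := by
          have h7 := mul_le_mul_of_nonneg_left h3 (wK_pos (c4 cls) i).le
          have h8 := mul_le_mul_of_nonneg_right (wK_le_one (c4 cls) i) h5
          linarith
        rw [hK0]
        linarith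
      CA := by
        intro y hy
        have hT : 0 ≤ Real.log (Real.log y) + Cs := by have := hll y hy; positivity
        exact (hCA.scale hT (hSw y hy)).mono (hMge y hy)
      CB := by
        intro y hy
        have hT : 0 ≤ Real.log (Real.log y) + Cs := by have := hll y hy; positivity
        refine (hCB.scale hT (hSw y hy)).mono ?_
        exact hfin y hy
      CD := by
        intro y hy
        have hT : 0 ≤ Real.log (Real.log y) + Cs := by have := hll y hy; positivity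
        exact CDmono (CDscale hCD hT (hSw y hy)) (hfin y hy) }
    (by omega)
  refine ⟨C * Real.exp ((2 * Fintype.card J + E) * Cs), fun y hy => ?_⟩
  have h1 := exptK hexp hmer (c4 cls) (rT (c4 cls) a f z) k c z y (by omega)
    (wt (∅ : Finset (J → ℝ)))
  simp only [sum_typesK hG, wt_empty, mul_one] at h1
  simp only [wt_empty, mul_one]
  rw [h1]
  have h2 := hC y hy
  have h3 : ∑ j, Sp (fun p => rho (f j) p) z y = Sp (fun p => rho (∏ j, f j) p) z y := by
    unfold Sp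
    rw [sum_comm]
    refine sum_congr rfl fun p hp => ?_
    have hp' := mem_filter.1 hp
    beta_reduce
    rw [rho_prod hG hp'.2 (mem_Ioc.1 hp'.1).1, ← sum_div]
    push_cast
    rfl
  rw [hM] at h2
  beta_reduce at h2
  have hly : 0 < Real.log y := Real.log_pos (by exact_mod_cast (by omega : 1 < y))
  have h4 : Real.exp (E * Real.log (Real.log y)) = (Real.log y) ^ E := by
    rw [Real.rpow_def_of_pos hly, mul_comm]
  rw [h3, Real.exp_add, Real.exp_add, h4] at h2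
  calc _ ≤ _ := le_abs_self _
    _ ≤ _ := h2
    _ = _ := by ring

end

end Pool.Agent.N870.D
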