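import Mathlib
import Pool.Agent.N870.D.Mak
import Pool.Agent.TH841.TR.Fin
import Pool.Agent.TH841.PM.Fin2
import Pool.Agent.N870.EC.Pen3

/-!
# Project D: pencils, the upper bound for all the integral moments
-/

set_option autoImplicit false

namespace Pool.Agent.N870.D

open Finset Polynomial Pool.Agent.W262.RK Pool.Agent.W307.RT Pool.Agent.W307.RS
open Pool.Agent.TH841.PT Pool.Agent.TH841.PM Pool.Agent.TH841.TR

open Pool.Agent.W307.SE (SN SN_nonneg)

open Pool.Agent.N870.EC (vk sk mw mw_nonneg mw_le BM one_le_SN)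

/-- the average of the powers of the orders of the 2-Selmer groups -/
theorem avge (hats : ATXD) (hcmb : S_CMB) {J : Type} [Fintype J] [DecidableEq J]
    (cls : J → Fin 3) (a : Fin 3 → ℤ) (f : J → ℤ[X]) (sp : J → Bool) (ha : ∀ k, a k ≠ 0)
    (hf : Irr f) {k : ℕ} (hk : 1 ≤ k) (hcl : ∀ c : Fin 3, ∃ j, cls j ≠ c)
    (hsp : ∀ j, sp j = false → NSqg (f j) (kpol (c4 cls) a f j 0) 1)
    {E : ℝ} (hE : 0 ≤ E) (hE' : ∀ c : Fin 3, ec cls sp k c ≤ E) (B : ℕ)
    (hrel : C (a 0) * ∏ l ∈ fs (c4 cls) 0, f l - C (a 1) * ∏ l ∈ fs (c4 cls) 1, f l =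
      C (a 2) * ∏ l ∈ fs (c4 cls) 2, f l) :
    ∃ C2 : ℝ, ∀ (N : ℤ) (X : ℕ), 1 ≤ X → N.natAbs ≤ X ^ B →
      ∑ t ∈ (Icc 1 X).filter (fun t : ℕ => ∀ j, (f j).eval (N + (t : ℤ)) ≠ 0),
        SN (Fval (c4 cls) a (fun l => (f l).eval (N + (t : ℤ))) 0)
          (Fval (c4 cls) a (fun l => (f l).eval (N + (t : ℤ))) 1) ^ k ≤
        C2 * (X * (1 + Real.log X) ^ E) := by
  have hmk : MKE k E (∅ : Finset (J → ℝ)) (c4 cls) a f :=
    makd hats hcmb h1l MergeF.merge EXPf.expk twg GDPf.gdp cls a f sp ha hf hk hcl hsp hE hE' _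
      le_rfl
  obtain ⟨C2, hC2⟩ := avgE hE cnth SelXf.selx antx RSPf.rsp RVU.rvp RVU.rup SUBf.subk (c4 cls) a f
    B ha k ∅ (by simp) hmk hrel
  refine ⟨C2, fun N X hX hN => ?_⟩
  have h := hC2 N X hX hN
  simp only [wt_empty, mul_one] at h
  exact h

section

variable {n : Fin 3 → ℕ}

/-- the classes of the factors -/
def cP (x : Σ k : Fin 3, Fin (n k)) : Fin 3 := x.1

lemma prod_cP {M : Type} [CommMonoid M] (F : (Σ k : Fin 3, Fin (n k)) → M) (k : Fin 3) :
    ∏ l ∈ fs (c4 (cP (n := n))) k, F l = ∏ i, F ⟨k, i⟩ := by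
  unfold fs
  rw [prod_filter, Fintype.prod_sigma, Finset.prod_eq_single k]
  · refine prod_congr rfl fun i _ => ?_
    rw [if_pos]
    exact Or.inl rfl
  · intro l _ hl
    refine prod_eq_one fun i _ => ?_
    rw [if_neg]
    rintro (h | h)
    · exact hl (Fin.castSucc_injective 3 h)
    · exact c4_ne _ _ h
  · intro h
    exact absurd (mem_univ k) h

lemma card_cP (P : (k : Fin 3) → Fin (n k) → Prop) [∀ k i, Decidable (P k i)] (c : Fin 3) :
    (univ.filter (fun x : Σ k : Fin 3, Fin (n k) => cP x = c ∧ P x.1 x.2)).card =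
      (univ.filter (fun i => P c i)).card := by
  symm
  apply card_bij (fun (i : Fin (n c)) _ => (⟨c, i⟩ : Σ k : Fin 3, Fin (n k)))
  · intro i hi
    rw [mem_filter] at hi ⊢
    exact ⟨mem_univ _, rfl, hi.2⟩
  · intro i _ j _ h
    simpa using h
  · rintro ⟨k, i⟩ hx
    rw [mem_filter] at hx
    obtain ⟨-, h1, h2⟩ := hx
    have h1' : k = c := h1
    subst h1'
    exact ⟨i, mem_filter.2 ⟨mem_univ _, h2⟩, rfl⟩

lemma card_cP' (c : Fin 3) :
    (univ.filter (fun x : Σ k : Fin 3, Fin (n k) => cP x = c)).card = n c := by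
  have h := card_cP (n := n) (fun _ _ => True) c
  simp only [and_true] at h
  rw [h]
  simp

lemma card_ne_cP (c : Fin 3) :
    ((univ.filter (fun x : Σ k : Fin 3, Fin (n k) => cP x ≠ c)).card : ℝ) =
      n 0 + n 1 + n 2 - n c := by
  have h1 := card_filter_add_card_filter_not
    (s := (univ : Finset (Σ k : Fin 3, Fin (n k)))) (fun x => cP x = c)
  have h2 : (univ : Finset (Σ k : Fin 3, Fin (n k))).card = n 0 + n 1 + n 2 := by
    rw [card_univ, Fintype.card_sigma, Fin.sum_univ_three]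
    simp
  rw [h2, card_cP'] at h1
  have h3 : (n c : ℝ) + ((univ.filter (fun x : Σ k : Fin 3, Fin (n k) => cP x ≠ c)).card : ℝ) =
      n 0 + n 1 + n 2 := by exact_mod_cast h1
  linarith

/-- the exponent -/
noncomputable def ex (D : ℤ[X]) (a : Fin 3 → ℤ) (f : ∀ k : Fin 3, Fin (n k) → ℤ[X]) (s : ℝ)
    (c : Fin 3) : ℝ :=
  (2 ^ s - 1) * (((n c : ℝ) + sk D a f c) / 2) - (1 - 2 ^ (-s)) * (n 0 + n 1 + n 2 - n c : ℝ)

open Classical in
/-- **the upper bound for the integral moments**, constant `D` -/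
theorem up_const (hats : ATXD) (hcmb : S_CMB) (a : Fin 3 → ℤ)
    (f : ∀ k : Fin 3, Fin (n k) → ℤ[X]) (d : ℤ) (ha : ∀ k, a k ≠ 0)
    (hf : ∀ k i, Irreducible (f k i) ∧ 0 < (f k i).natDegree)
    (hf' : ∀ k i l j, (⟨k, i⟩ : Σ k : Fin 3, Fin (n k)) ≠ ⟨l, j⟩ → ¬ Associated (f k i) (f l j))
    (hU : UP a f 0 - UP a f 1 = UP a f 2) (hd : d ≠ 0) (k : ℕ) (hk : 1 ≤ k) (E : ℝ) (hE : 0 ≤ E)
    (hE' : ∀ c, ex (C d) a f k c ≤ E) (L : ℕ) :
    ∃ K : ℝ, ∀ (N : ℤ) (M : ℕ), 1 ≤ M → |N| ≤ (M : ℤ) ^ L →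
      ∑ t ∈ (Ioc N (N + M)).filter (fun t : ℤ => ∀ l, (C d * UP a f l).eval t ≠ 0),
        (mw ((C d * UP a f 0).eval t) ((C d * UP a f 1).eval t)) ^ k ≤
        K * (M * (1 + Real.log M) ^ E) := by
  by_cases hcl : ∀ c : Fin 3, ∃ x : Σ k : Fin 3, Fin (n k), cP x ≠ c
  swap
  · -- all the polynomials are constant
    have hn0 : ∀ c, n c = 0 := by
      push Not at hcl
      obtain ⟨c, hc⟩ := hcl
      have h1 : ∀ l, l ≠ c → n l = 0 := by
        intro l hl
        by_contra h0
        exact hl (hc ⟨l, ⟨0, Nat.pos_of_ne_zero h0⟩⟩)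
      have hcon : ∀ l, n l = 0 → UP a f l = C (a l) := by
        intro l hl
        unfold Pool.Agent.TH841.TR.UP
        have : ∏ i, f l i = 1 := by
          apply prod_eq_one
          intro i _
          exact absurd i.2 (by omega)
        rw [this, mul_one]
      have hdeg : (UP a f c).natDegree = 0 := by
        fin_cases c
        · have e1 := hcon 1 (h1 1 (by decide))
          have e2 := hcon 2 (h1 2 (by decide))
          have e3 : UP a f 0 = UP a f 1 + UP a f 2 := by rw [← hU]; ring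
          show (UP a f 0).natDegree = 0
          rw [e3, e1, e2, ← C_add, natDegree_C]
        · have e1 := hcon 0 (h1 0 (by decide))
          have e2 := hcon 2 (h1 2 (by decide))
          have e3 : UP a f 1 = UP a f 0 - UP a f 2 := by rw [← hU]; ring
          show (UP a f 1).natDegree = 0
          rw [e3, e1, e2, ← C_sub, natDegree_C]
        · have e1 := hcon 0 (h1 0 (by decide))
          have e2 := hcon 1 (h1 1 (by decide))
          show (UP a f 2).natDegree = 0
          rw [← hU, e1, e2, ← C_sub, natDegree_C]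
      intro l
      by_cases hl : l = c
      · subst hl
        by_contra h0
        have hi : (0 : ℕ) < n l := Nat.pos_of_ne_zero h0
        have hne : UP a f l ≠ 0 := by
          unfold Pool.Agent.TH841.TR.UP
          exact mul_ne_zero (C_ne_zero.2 (ha l)) (prod_ne_zero_iff.2 fun i _ => (hf l i).1.ne_zero)
        have h2 : f l ⟨0, hi⟩ ∣ UP a f l := by
          unfold Pool.Agent.TH841.TR.UP
          exact (dvd_prod_of_mem _ (mem_univ _)).mul_left _
        have h3 := natDegree_le_of_dvd h2 hne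
        have h4 := (hf l ⟨0, hi⟩).2
        omega
      · exact h1 l hl
    have hU0 : ∀ c, UP a f c = C (a c) := by
      intro c
      unfold Pool.Agent.TH841.TR.UP
      have : ∏ i, f c i = 1 := by
        apply prod_eq_one
        intro i _
        exact absurd i.2 (by have := hn0 c; omega)
      rw [this, mul_one]
    have ha2 : a 0 - a 1 = a 2 := by
      rw [hU0, hU0, hU0, ← C_sub] at hU
      exact C_injective hU
    obtain ⟨K, hK⟩ := Pool.Agent.N870.EC.iso_up a ha ha2 (C d) (C_ne_zero.2 hd) k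
      (by exact_mod_cast (by omega : 0 < k)) L
    refine ⟨max K 0, fun N M hM hN => ?_⟩
    have h1 := hK N M hM hN
    have e1 : ∀ (c : Fin 3) (t : ℤ), (C d * UP a f c).eval t = (C d : ℤ[X]).eval t * a c := by
      intro c t
      rw [hU0, eval_mul, eval_C, eval_C]
    have h2 : ∑ t ∈ (Ioc N (N + M)).filter (fun t : ℤ => ∀ l, (C d * UP a f l).eval t ≠ 0),
        (mw ((C d * UP a f 0).eval t) ((C d * UP a f 1).eval t)) ^ k ≤ K * M := by
      refine le_trans (le_of_eq ?_) h1
      refine sum_congr (filter_congr fun t _ => ?_) fun t _ => by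
        rw [e1, e1, Real.rpow_natCast]
      constructor
      · intro h1 h2
        exact h1 0 (by rw [e1, h2, zero_mul])
      · intro h1 c
        rw [e1]
        exact mul_ne_zero h1 (ha c)
    have hlM : 0 ≤ Real.log (M : ℝ) := Real.log_natCast_nonneg M
    have h3 : (1 : ℝ) ≤ (1 + Real.log M) ^ E := Real.one_le_rpow (by linarith) hE
    have hM0 : (0 : ℝ) ≤ M := Nat.cast_nonneg _
    calc _ ≤ K * M := h2
      _ ≤ max K 0 * M := mul_le_mul_of_nonneg_right (le_max_left _ _) hM0
      _ ≤ max K 0 * (M * (1 + Real.log M) ^ E) :=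
          mul_le_mul_of_nonneg_left (le_mul_of_one_le_right hM0 h3) (le_max_right _ _)
  · -- the main case
    have hirr : Irr (Pool.Agent.TH841.TR.fp f) :=
      ⟨fun x => (hf x.1 x.2).1, fun x => (hf x.1 x.2).2, fun x y hxy => hf' x.1 x.2 y.1 y.2 hxy⟩
    have hUP : ∀ c, C (d * a c) * ∏ l ∈ fs (c4 (cP (n := n))) c, Pool.Agent.TH841.TR.fp f l = C d * UP a f c := by
      intro c
      rw [prod_cP]
      unfold Pool.Agent.TH841.TR.UP Pool.Agent.TH841.TR.fp
      rw [C_mul]
      ring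
    set sp : (Σ k : Fin 3, Fin (n k)) → Bool :=
      fun x => decide (SqM (f x.1 x.2) (vk (C d) a f x.1)) with hsp
    have hvk : ∀ c : Fin 3, vk (C d) a f c = C (sg4 c.castSucc) * (C d * UP a f (cp4 c.castSucc)) := by
      intro c
      fin_cases c
      · exact (Pool.Agent.TH841.TR.vp_zero (C d) a f).symm
      · exact (Pool.Agent.TH841.TR.vp_one (C d) a f).symm
      · exact (Pool.Agent.TH841.TR.vp_two (C d) a f).symm
    have hns : ∀ x, sp x = false →
        NSqg (Pool.Agent.TH841.TR.fp f x) (kpol (c4 (cP (n := n))) (fun c => d * a c) (Pool.Agent.TH841.TR.fp f) x 0) 1 := by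
      rintro ⟨c, i⟩ hx
      have h1 : ¬ SqM (f c i) (vk (C d) a f c) := of_decide_eq_false hx
      have hk : kpol (c4 (cP (n := n))) (fun c => d * a c) (Pool.Agent.TH841.TR.fp f) ⟨c, i⟩ 0 =
          vk (C d) a f c := by
        unfold kpol
        rw [if_neg (c4_ne _ _), hvk]
        have h2 : c4 (cP (n := n)) ⟨c, i⟩ = c.castSucc := rfl
        rw [h2, C_mul, mul_assoc, hUP]
      intro q hq
      apply h1
      refine ⟨q, ?_⟩
      rw [hk, Int.cast_one, C_1, one_mul] at hq
      exact hq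
    have hec : ∀ c, ec (cP (n := n)) sp k c ≤ E := by
      intro c
      refine le_trans (le_of_eq ?_) (hE' c)
      unfold ec ex
      have h1 : (univ.filter (fun x : Σ k : Fin 3, Fin (n k) => cP x = c ∧ sp x = true)).card =
          sk (C d) a f c := by
        have h2 := card_cP (n := n) (fun k i => SqM (f k i) (vk (C d) a f k)) c
        unfold sk
        rw [← h2]
        congr 1
        refine filter_congr fun x _ => ?_
        rw [hsp]
        simp only [decide_eq_true_eq]
      rw [h1, card_cP', card_ne_cP, Real.rpow_neg (by norm_num), Real.rpow_natCast]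
      ring
    obtain ⟨K, hK⟩ := avge hats hcmb (cP (n := n)) (fun c => d * a c) (Pool.Agent.TH841.TR.fp f) sp
      (fun c => mul_ne_zero hd (ha c)) hirr hk hcl hns hE hec L (by
        simp only [hUP]
        rw [← mul_sub, hU])
    refine ⟨K, fun N M hM hN => ?_⟩
    have hN' : N.natAbs ≤ M ^ L := by
      zify
      exact_mod_cast hN
    have h := hK N M hM hN'
    have hF : ∀ (t : ℤ) (c : Fin 3), Fval (c4 (cP (n := n))) (fun c => d * a c)
        (fun l => (Pool.Agent.TH841.TR.fp f l).eval t) c = (C d * UP a f c).eval t := by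
      intro t c
      rw [← hUP, eval_mul, eval_C, eval_prod]
      rfl
    have hz : ∀ t : ℤ, (∀ j, (Pool.Agent.TH841.TR.fp f j).eval t ≠ 0) ↔ ∀ l, (C d * UP a f l).eval t ≠ 0 := by
      intro t
      constructor
      · intro h1 l
        rw [← hUP, eval_mul, eval_C, eval_prod]
        exact mul_ne_zero (mul_ne_zero hd (ha l)) (prod_ne_zero_iff.2 fun j _ => h1 j)
      · rintro h1 ⟨l, i⟩ h2
        apply h1 l
        rw [← hUP, prod_cP, eval_mul, eval_prod, prod_eq_zero (mem_univ i) h2, mul_zero]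
    simp only [hF] at h
    have h3 : ∑ t ∈ (Ioc N (N + M)).filter (fun t : ℤ => ∀ j, (Pool.Agent.TH841.TR.fp f j).eval t ≠ 0),
        SN ((C d * UP a f 0).eval t) ((C d * UP a f 1).eval t) ^ k ≤
          K * (M * (1 + Real.log M) ^ E) := by
      refine le_trans (le_of_eq ?_) h
      refine ((sum_congr (by congr!) fun _ _ => rfl).trans
        (Pool.Agent.N870.EC.sum_int (fun t => SN ((C d * Pool.Agent.TH841.TR.UP a f 0).eval t)
          ((C d * Pool.Agent.TH841.TR.UP a f 1).eval t) ^ k) (fun t => ∀ j, (Pool.Agent.TH841.TR.fp f j).eval t ≠ 0) N M).symm).trans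
        (sum_congr (by congr!) fun _ _ => rfl)
    refine le_trans ?_ h3
    rw [filter_congr (q := fun t => ∀ l, (C d * UP a f l).eval t ≠ 0) fun t _ => hz t]
    refine sum_le_sum fun t ht => ?_
    have h4 := (mem_filter.1 ht).2
    refine pow_le_pow_left₀ (mw_nonneg _ _) (mw_le (h4 0) (h4 1) fun h5 => ?_) k
    apply h4 2
    rw [← hU, mul_sub, eval_sub, h5, sub_self]

end

end Pool.Agent.N870.D
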