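import Mathlib
import Pool.Agent.N870.D.Pen
import Pool.Agent.N222.D.ATX
import Pool.Agent.N263.D.CMB

/-!
# Project D: the exact growth of the integral moments in a pencil
-/

set_option autoImplicit false

namespace Pool.Agent.N870.D

open Finset Polynomial Filter Pool.Agent.W262.RK

open Pool.Agent.TH841.PT (EQ Irr bd_EQ)

open Pool.Agent.TH841.TR (SqM UP fp)

open Pool.Agent.TH841.SH.D (rk ShaTor)

open Pool.Agent.N870.EC (vk sk mw mw_nonneg mw_le BM one_le_SN pen_low S_PW S_MERP S_MER2 UP_ne)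

lemma one_le_mw {A B : ℤ} (hA : A ≠ 0) (hB : B ≠ 0) (hAB : A ≠ B) : 1 ≤ mw A B := by
  unfold mw
  have h1 : Finite (ShaTor (EQ A B) 2) := by
    have := (bd_EQ hA hB hAB).fin 1
    rwa [pow_one] at this
  have h0 : Nonempty (ShaTor (EQ A B) 2) :=
    ⟨(⟨0, smul_zero 2⟩ : {x : Pool.Agent.TH841.SH.D.Sha (EQ A B) // 2 • x = 0})⟩
  have h2 : 0 < Nat.card (ShaTor (EQ A B) 2) := Nat.card_pos
  have h3 : (1 : ℝ) ≤ (Nat.card (ShaTor (EQ A B) 2) : ℝ) := by exact_mod_cast h2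
  have h4 : (1 : ℝ) ≤ (2 : ℝ) ^ rk (EQ A B) := one_le_pow₀ (by norm_num)
  exact one_le_mul_of_one_le_of_one_le h4 h3

section

variable {n : Fin 3 → ℕ}

/-- the exponent of the growth of the moment of order `s` -/
noncomputable def gr (D : ℤ[X]) (a : Fin 3 → ℤ) (f : ∀ k : Fin 3, Fin (n k) → ℤ[X]) (s : ℝ) : ℝ :=
  max 0 (max (ex D a f s 0) (max (ex D a f s 1) (ex D a f s 2)))

lemma gr_nonneg (D : ℤ[X]) (a : Fin 3 → ℤ) (f : ∀ k : Fin 3, Fin (n k) → ℤ[X]) (s : ℝ) :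
    0 ≤ gr D a f s := le_max_left _ _

lemma ex_le_gr (D : ℤ[X]) (a : Fin 3 → ℤ) (f : ∀ k : Fin 3, Fin (n k) → ℤ[X]) (s : ℝ)
    (c : Fin 3) : ex D a f s c ≤ gr D a f s := by
  unfold gr
  fin_cases c
  · exact (le_max_left _ _).trans (le_max_right _ _)
  · exact ((le_max_left _ _).trans (le_max_right _ _)).trans (le_max_right _ _)
  · exact ((le_max_right _ _).trans (le_max_right _ _)).trans (le_max_right _ _)

lemma gr_cases (D : ℤ[X]) (a : Fin 3 → ℤ) (f : ∀ k : Fin 3, Fin (n k) → ℤ[X]) (s : ℝ) :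
    gr D a f s = 0 ∨ ∃ c, gr D a f s = ex D a f s c := by
  unfold gr
  rcases max_choice (0 : ℝ) (max (ex D a f s 0) (max (ex D a f s 1) (ex D a f s 2))) with h | h
  · exact Or.inl h
  · right
    rw [h]
    rcases max_choice (ex D a f s 0) (max (ex D a f s 1) (ex D a f s 2)) with h1 | h1
    · exact ⟨0, h1⟩
    · rw [h1]
      rcases max_choice (ex D a f s 1) (ex D a f s 2) with h2 | h2
      · exact ⟨1, h2⟩
      · exact ⟨2, h2⟩

open Classical in
/-- all the moments are at least `M / 2` -/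
lemma low_half (a : Fin 3 → ℤ) (f : ∀ k : Fin 3, Fin (n k) → ℤ[X]) (D : ℤ[X])
    (ha : ∀ k, a k ≠ 0) (hf : ∀ k i, Irreducible (f k i) ∧ 0 < (f k i).natDegree)
    (hU : UP a f 0 - UP a f 1 = UP a f 2) (hD : D ≠ 0) (s : ℝ) (hs : 0 < s) :
    ∃ M0 : ℕ, ∀ (N : ℤ) (M : ℕ), M0 ≤ M →
      (M : ℝ) / 2 ≤ ∑ t ∈ (Ioc N (N + M)).filter (fun t : ℤ => ∀ l, (D * UP a f l).eval t ≠ 0),
        (mw ((D * UP a f 0).eval t) ((D * UP a f 1).eval t)) ^ s := by
  have hne : ∀ l, D * UP a f l ≠ 0 := fun l => mul_ne_zero hD (UP_ne ha hf l)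
  set P : ℤ[X] := ∏ l, (D * UP a f l) with hP
  have hP0 : P ≠ 0 := prod_ne_zero_iff.2 fun l _ => hne l
  refine ⟨2 * P.natDegree, fun N M hM => ?_⟩
  have h1 : ∑ t ∈ (Ioc N (N + M)).filter (fun t : ℤ => ∀ l, (D * UP a f l).eval t ≠ 0), (1 : ℝ) ≤
      ∑ t ∈ (Ioc N (N + M)).filter (fun t : ℤ => ∀ l, (D * UP a f l).eval t ≠ 0),
        (mw ((D * UP a f 0).eval t) ((D * UP a f 1).eval t)) ^ s := by
    refine sum_le_sum fun t ht => ?_
    have h4 := (mem_filter.1 ht).2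
    refine Real.one_le_rpow (one_le_mw (h4 0) (h4 1) fun h5 => ?_) hs.le
    apply h4 2
    rw [← hU, mul_sub, eval_sub, h5, sub_self]
  refine le_trans ?_ h1
  rw [sum_const, nsmul_eq_mul, mul_one]
  have h2 := card_filter_add_card_filter_not (s := Ioc N (N + M))
    (fun t : ℤ => ∀ l, (D * UP a f l).eval t ≠ 0)
  have h3 : ((Ioc N (N + M)).filter
      (fun t : ℤ => ¬ ∀ l, (D * UP a f l).eval t ≠ 0)).card ≤ P.natDegree := by
    refine le_trans (card_le_card (t := P.roots.toFinset) fun t ht => ?_)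
      ((Multiset.toFinset_card_le _).trans (card_roots' P))
    have h4 := (mem_filter.1 ht).2
    push Not at h4
    obtain ⟨l, hl⟩ := h4
    rw [Multiset.mem_toFinset, mem_roots hP0, IsRoot, hP, eval_prod]
    exact prod_eq_zero (mem_univ l) hl
  rw [Int.card_Ioc] at h2
  have h5 : (N + (M : ℤ) - N).toNat = M := by
    rw [add_sub_cancel_left]
    exact Int.toNat_natCast M
  rw [h5] at h2
  have h6 : M ≤ 2 * ((Ioc N (N + M)).filter
      (fun t : ℤ => ∀ l, (D * UP a f l).eval t ≠ 0)).card := by omega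
  have h7 : (M : ℝ) ≤ 2 * (((Ioc N (N + M)).filter
      (fun t : ℤ => ∀ l, (D * UP a f l).eval t ≠ 0)).card : ℝ) := by exact_mod_cast h6
  linarith

variable (hpw : S_PW) (hmp : S_MERP) (hm2 : S_MER2)
    (a : Fin 3 → ℤ) (f : ∀ k : Fin 3, Fin (n k) → ℤ[X]) (d : ℤ)
    (ha : ∀ k, a k ≠ 0) (hf : ∀ k i, Irreducible (f k i) ∧ 0 < (f k i).natDegree)
    (hf' : ∀ k i l j, (⟨k, i⟩ : Σ k : Fin 3, Fin (n k)) ≠ ⟨l, j⟩ → ¬ Associated (f k i) (f l j))
    (hU : UP a f 0 - UP a f 1 = UP a f 2) (hd : d ≠ 0)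

include hpw hmp hm2 ha hf hf' hU hd

open Classical in
/-- the lower bound with the exponent of the growth, constant `D` -/
theorem low_gr (s ε : ℝ) (hs : 0 < s) (hε : 0 < ε) (L : ℕ) :
    ∃ M0 : ℕ, ∀ (N : ℤ) (M : ℕ), M0 ≤ M → |N| ≤ (M : ℤ) ^ L →
      (M : ℝ) * (Real.log M) ^ (gr (C d) a f s - ε) ≤
        ∑ t ∈ (Ioc N (N + M)).filter (fun t : ℤ => ∀ l, (C d * UP a f l).eval t ≠ 0),
          (mw ((C d * UP a f 0).eval t) ((C d * UP a f 1).eval t)) ^ s := by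
  have hDf : ∀ k i, ¬ f k i ∣ C d := by
    intro k i h
    have h1 := natDegree_le_of_dvd h (C_ne_zero.2 hd)
    rw [natDegree_C] at h1
    have h2 := (hf k i).2
    omega
  rcases gr_cases (C d) a f s with h0 | ⟨c, hc⟩
  · obtain ⟨M1, hM1⟩ := low_half a f (C d) ha hf hU (C_ne_zero.2 hd) s hs
    obtain ⟨M2, hM2⟩ := eventually_atTop.1 (((tendsto_rpow_atTop hε).comp
      (Real.tendsto_log_atTop.comp (tendsto_natCast_atTop_atTop (R := ℝ)))).eventually_ge_atTop 2)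
    refine ⟨M1 + M2 + 3, fun N M hM _ => ?_⟩
    have h1 := hM1 N M (by omega)
    have h2 : (2 : ℝ) ≤ (Real.log M) ^ ε := hM2 M (by omega)
    refine le_trans ?_ h1
    have hl : 0 < Real.log (M : ℝ) := Real.log_pos (by exact_mod_cast (by omega : 1 < M))
    rw [h0, zero_sub, Real.rpow_neg hl.le, ← div_eq_mul_inv]
    exact div_le_div_of_nonneg_left (Nat.cast_nonneg _) (by norm_num) h2
  · obtain ⟨M0, hM0⟩ := pen_low hpw hmp hm2 a f (C d) ha hf hf' hU (C_ne_zero.2 hd) hDf (m := 0)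
      (fun i => i.elim0) (fun j => j.elim0) d 0 hd (by rw [pow_zero, mul_one]) s ε hs hε L c
    refine ⟨M0, fun N M hM hN => ?_⟩
    have h1 := hM0 N M hM hN
    rw [hc]
    unfold ex
    rw [Nat.cast_zero, add_zero] at h1
    exact h1

/-- the moments of integral order, constant `D`: boundedness -/
theorem BM_iff (k : ℕ) (hk : 1 ≤ k) : BM (C d) a f k ↔ ∀ c, ex (C d) a f k c ≤ 0 := by
  have hk0 : (0 : ℝ) < k := by exact_mod_cast (by omega : 0 < k)
  constructor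
  · intro h c
    by_contra hc
    push Not at hc
    have hDf : ∀ k i, ¬ f k i ∣ C d := by
      intro k i h
      have h1 := natDegree_le_of_dvd h (C_ne_zero.2 hd)
      rw [natDegree_C] at h1
      have h2 := (hf k i).2
      omega
    exact Pool.Agent.N870.EC.not_BM_const hpw hmp hm2 a f (C d) ha hf hf' hU (C_ne_zero.2 hd) hDf d
      rfl k hk0 c hc h
  · intro h L
    obtain ⟨K, hK⟩ := up_const Pool.Agent.N222.D.t_ATX Pool.Agent.N263.D.t_CMB a f d ha hf hf' hU hd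
      k hk 0 le_rfl h L
    refine ⟨K, fun N M hM hN => le_trans (le_of_eq ?_) ((hK N M hM hN).trans (le_of_eq ?_))⟩
    · refine sum_congr (by congr!) fun t _ => ?_
      rw [Real.rpow_natCast]
    · rw [Real.rpow_zero, mul_one]

end

end Pool.Agent.N870.D
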